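import Pool.Agent.P.MP_b7645d_gt.StepAB

set_option autoImplicit false

open MeasureTheory ProbabilityTheory Set Real Filter Topology

namespace Pool.Agent.P.MP_b7645d_gt

lemma PhiInv_mono {a b : ℝ} (ha : a ∈ Ioo (0 : ℝ) 1) (hb : b ∈ Ioo (0 : ℝ) 1) (h : a ≤ b) :
    PhiInv a ≤ PhiInv b := by
  rw [← strictMono_Phi.le_iff_le, Phi_PhiInv ha, Phi_PhiInv hb]; exact h

/-- concavity of the Gaussian profile, tangent form -/
lemma iso_tangent {a b : ℝ} (ha : a ∈ Ioo (0 : ℝ) 1) (hb : b ∈ Ioo (0 : ℝ) 1) :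
    Iso b ≤ Iso a - PhiInv a * (b - a) := by
  rcases lt_trichotomy a b with h | h | h
  · obtain ⟨c, hc, hc'⟩ := exists_hasDerivAt_eq_slope Iso (fun u => -PhiInv u) h
      continuous_Iso.continuousOn fun u hu => hasDerivAt_Iso ⟨ha.1.trans hu.1, hu.2.trans hb.2⟩
    have h1 := PhiInv_mono ha ⟨ha.1.trans hc.1, hc.2.trans hb.2⟩ hc.1.le
    rw [eq_div_iff (sub_pos.2 h).ne'] at hc'
    nlinarith [mul_le_mul_of_nonneg_right h1 (sub_pos.2 h).le]
  · simp [h]
  · obtain ⟨c, hc, hc'⟩ := exists_hasDerivAt_eq_slope Iso (fun u => -PhiInv u) h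
      continuous_Iso.continuousOn fun u hu => hasDerivAt_Iso ⟨hb.1.trans hu.1, hu.2.trans ha.2⟩
    have h1 := PhiInv_mono ⟨hb.1.trans hc.1, hc.2.trans ha.2⟩ ha hc.2.le
    rw [eq_div_iff (sub_pos.2 h).ne'] at hc'
    nlinarith [mul_le_mul_of_nonneg_right h1 (sub_pos.2 h).le]

lemma neg_PhiInv_mul_le {a : ℝ} (ha : a ∈ Ioo (0 : ℝ) 1) : -PhiInv a * a ≤ Iso a := by
  have := mills (-PhiInv a)
  rwa [neg_neg, Phi_PhiInv ha, phi_neg, ← Iso_of_mem ha] at this

lemma abs_PhiInv_mul_le {a : ℝ} (ha : a ∈ Ioo (0 : ℝ) 1) :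
    |PhiInv a| * (a * (1 - a)) ≤ Iso a := by
  have h1 := neg_PhiInv_mul_le ha
  have h2 := mills (PhiInv a)
  rw [Phi_neg, Phi_PhiInv ha, ← Iso_of_mem ha] at h2
  have h3 := Iso_nonneg a
  have ha1 := sub_pos.2 ha.2
  rcases abs_cases (PhiInv a) with h | h
  · rw [h.1]; nlinarith [mul_nonneg h.2 (sq_nonneg (1 - a)), mul_nonneg h.2 ha1.le]
  · rw [h.1]; nlinarith [mul_nonneg (neg_pos.2 h.2).le (sq_nonneg a)]

lemma iso_le_two {a b : ℝ} (ha : a ∈ Ioo (0 : ℝ) 1) (hb : b ∈ Ioo (0 : ℝ) 1)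
    (h : |b - a| ≤ a * (1 - a)) : Iso b ≤ 2 * Iso a := by
  have h1 := iso_tangent ha hb
  have h2 := abs_PhiInv_mul_le ha
  have h3 : |PhiInv a * (b - a)| ≤ |PhiInv a| * (a * (1 - a)) := by
    rw [abs_mul]; gcongr
  linarith [(abs_le.1 h3).1]

lemma mul_one_sub_le_iso {a : ℝ} (ha : a ∈ Ioo (0 : ℝ) 1) :
    Iso (1 / 2) * (a * (1 - a)) ≤ Iso a := by
  have h1 := iso_tangent ha (b := 1 / 2) ⟨by norm_num, by norm_num⟩
  have h2 := abs_PhiInv_mul_le ha
  have h0 : 0 ≤ a * (1 - a) := mul_nonneg ha.1.le (sub_pos.2 ha.2).le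
  have h3 : |PhiInv a * (1 / 2 - a)| ≤ |PhiInv a| * (1 / 2) := by
    rw [abs_mul]; gcongr
    exact abs_le.2 ⟨by linarith [ha.2], by linarith [ha.1]⟩
  have h4 : Iso (1 / 2) ≤ Iso a + |PhiInv a| * (1 / 2) := by linarith [(abs_le.1 h3).1]
  have h5 := mul_le_mul_of_nonneg_right h4 h0
  have h6 : a * (1 - a) ≤ 1 / 4 := by nlinarith [sq_nonneg (a - 1 / 2)]
  nlinarith [Iso_nonneg a, mul_le_mul_of_nonneg_left h6 (Iso_nonneg a)]

/-- an upper Mills ratio bound -/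
lemma iso_le_mills {a : ℝ} (ha : a ∈ Ioo (0 : ℝ) 1) (hy : 1 ≤ -PhiInv a) :
    Iso a ≤ (-PhiInv a + 3) * a := by
  set y := -PhiInv a with hydef
  have h1 := iso_tangent (Phi_mem_Ioo (-(y + 1))) ha
  rw [Iso_Phi, PhiInv_Phi, phi_neg] at h1
  have h2 : Iso a = phi y := by rw [Iso_of_mem ha, hydef, phi_neg]
  have h3 : phi (y + 1) * (y + 1) ≤ phi y := by
    rw [phi_eq, phi_eq, mul_assoc]
    gcongr
    have e : rexp (-y ^ 2 / 2) = rexp (-(y + 1) ^ 2 / 2) * rexp (y + 1 / 2) := by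
      rw [← Real.exp_add]; congr 1; ring
    rw [e]
    gcongr
    linarith [Real.add_one_le_exp (y + 1 / 2)]
  have h4 := (Phi_mem_Ioo (-(y + 1))).1
  have h5 : phi y ≤ phi (y + 1) + (y + 1) * a := by rw [← h2]; nlinarith
  have h6 : phi y * y ≤ (y + 1) ^ 2 * a := by nlinarith
  rw [h2]
  refine le_of_mul_le_mul_right (h6.trans ?_) (show 0 < y by linarith)
  nlinarith [ha.1]

section
variable {ι : Type} [Fintype ι] [DecidableEq ι]

lemma D_scomp {u : (ι → ℝ) → ℝ} {x : ι → ℝ} (hu : DifferentiableAt ℝ u x) {θ : ℝ → ℝ} {m : ℝ}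
    (hθ : HasDerivAt θ m (u x)) (i : ι) : D (fun y => θ (u y)) i x = m * D u i x := by
  have := (hθ.comp_hasFDerivAt x hu.hasFDerivAt).fderiv
  rw [D, show (fun y => θ (u y)) = θ ∘ u from rfl, this]
  simp [D]

lemma gn_scomp {u : (ι → ℝ) → ℝ} {x : ι → ℝ} (hu : DifferentiableAt ℝ u x) {θ : ℝ → ℝ} {m : ℝ}
    (hθ : HasDerivAt θ m (u x)) (hm : 0 ≤ m) : gn (fun y => θ (u y)) x = m * gn u x := by
  simp only [gn, D_scomp hu hθ, mul_pow, ← Finset.mul_sum]
  rw [Real.sqrt_mul (sq_nonneg _), Real.sqrt_sq hm]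

lemma Adm.scomp {u : (ι → ℝ) → ℝ} (hu : Adm u) {θ θ' : ℝ → ℝ} {L : ℝ}
    (hθ : ∀ y, HasDerivAt θ (θ' y) y) (hL : ∀ y ∈ Ioo (0 : ℝ) 1, |θ' y| ≤ L)
    (hr : ∀ κ > 0, ∃ κ' > 0, ∀ y ∈ Icc κ (1 - κ), θ y ∈ Icc κ' (1 - κ')) :
    Adm fun y => θ (u y) := by
  obtain ⟨κ, hκ, h⟩ := hu.range
  obtain ⟨C, hC⟩ := hu.grad
  obtain ⟨κ', hκ', h'⟩ := hr κ hκ
  refine ⟨fun x hx => (hθ _).differentiableAt.comp x (hu.diff x hx),
    ⟨κ', hκ', fun x hx => h' _ (h x hx)⟩, ⟨L * C, fun x hx i => ?_⟩⟩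
  rw [D_scomp (hu.diff x hx) (hθ _), abs_mul]
  exact mul_le_mul (hL _ (hu.mem_Ioo hx)) (hC x hx i) (abs_nonneg _)
    ((abs_nonneg _).trans (hL _ (hu.mem_Ioo hx)))

lemma Adm.integrableOn_var {u : (ι → ℝ) → ℝ} (hu : Adm u) :
    IntegrableOn (fun x => u x * (1 - u x)) (Q ι) :=
  integrableOn_Q (hu.aesm.mul (aestronglyMeasurable_const.sub hu.aesm)) (C := 1) fun x hx => by
    have := hu.mem_Ioo hx
    exact abs_le.2 ⟨by nlinarith [this.1, this.2], by nlinarith [this.1, this.2]⟩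

lemma integral_iso_heat_le {f : (ι → ℝ) → ℝ} (hf : GAdm f) (hs : Sym 1 f) {r : ℝ} (hr : 0 < r) :
    ∫ x in Q ι, Iso (heat r f x) ≤ (∫ x in Q ι, Iso (f x)) + r * ∫ x in Q ι, gn f x := by
  obtain ⟨C, hC, h1, h2, h3⟩ := hf.exists_bound
  have hm := hf.diff.continuous.measurable
  have hu := (hf.heat hr).adm
  have hIm : Measurable fun y => Iso (f y) := continuous_Iso.measurable.comp hm
  have hIb : ∀ y, |Iso (f y)| ≤ 1 / 2 := fun y => by
    rw [abs_of_nonneg (Iso_nonneg _)]; exact Iso_le_half _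
  have hIs : Sym 1 fun y => Iso (f y) :=
    ⟨fun k x => by simp only [hs.per], fun k x => by simp only [hs.par, Pi.one_apply, one_mul]⟩
  have i1 : IntegrableOn (heat r fun y => Iso (f y)) (Q ι) :=
    integrableOn_Q (measurable_heat hIm r).aestronglyMeasurable fun x _ => abs_heat_le hIm hIb r x
  have i2 : IntegrableOn (heat r (gn f)) (Q ι) :=
    integrableOn_Q (measurable_heat (measurable_gn f) r).aestronglyMeasurable fun x _ =>
      abs_heat_le (measurable_gn f) h3 r x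
  calc _ ≤ ∫ x in Q ι, (heat r (fun y => Iso (f y)) x + r * heat r (gn f) x) :=
        integral_mono hu.integrableOn_Iso (i1.add (i2.const_mul r)) fun x => iso_heat_le hf hr x
    _ = _ := by
        rw [integral_add i1 (i2.const_mul r), integral_const_mul, integral_heat hIm hIb hIs,
          integral_heat (measurable_gn f) h3 (hs.gn hf.diff)]

lemma sqrt_move {a a' g r m : ℝ} (ha' : 0 ≤ a') (h2 : a' ≤ 2 * a) (hg : 0 ≤ g) (hr : 0 < r)
    (h : r * g ≤ a) (hm : 1 / 2 ≤ m) :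
    √((π * a') ^ 2 + (m * g) ^ 2) ≤ m * g + (2 * π * r) ^ 2 * g + 2 * π * (a - r * g) := by
  have hπ := pi_pos
  set s := 2 * π * r with hs
  set δ := 2 * π * (a - r * g) with hδ
  have hs0 : 0 < s := by positivity
  have hδ0 : 0 ≤ δ := mul_nonneg (by positivity) (by linarith)
  have hm0 : 0 ≤ m := by linarith
  refine Real.sqrt_le_iff.2 ⟨by positivity, ?_⟩
  have h1 : π * a' ≤ s * g + δ := by rw [hs, hδ]; nlinarith
  have h3 : (π * a') ^ 2 ≤ (s * g + δ) ^ 2 := pow_le_pow_left₀ (by positivity) h1 2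
  have h4 : s * g * δ ≤ (m + s ^ 2) * g * δ := by
    gcongr; nlinarith [sq_nonneg (s - 1 / 2)]
  have h5 : 1 / 2 * (s * g) ^ 2 ≤ m * (s * g) ^ 2 := by gcongr
  nlinarith [sq_nonneg (s ^ 2 * g)]

/-- moving the level sets of a smoothed function in both directions -/
lemma J_add_J_le {d : ℕ} {u : (Fin d → ℝ) → ℝ} (hu : Adm u) {r : ℝ} (hr : 0 < r)
    (hg : ∀ x, r * gn u x ≤ Iso (u x)) :
    J ((∫ x in Q (Fin d), u x) + (∫ x in Q (Fin d), u x * (1 - u x)) / 2) +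
      J ((∫ x in Q (Fin d), u x) - (∫ x in Q (Fin d), u x * (1 - u x)) / 2) ≤
      (2 + 2 * (2 * π * r) ^ 2 - 4 * π * r) * (∫ x in Q (Fin d), gn u x) +
        4 * π * ∫ x in Q (Fin d), Iso (u x) := by
  have key : ∀ e : ℝ, |e| ≤ 1 / 2 → J ((∫ x in Q (Fin d), u x) +
      e * ∫ x in Q (Fin d), u x * (1 - u x)) ≤ ∫ x in Q (Fin d),
      ((1 + e * (1 - 2 * u x)) * gn u x + ((2 * π * r) ^ 2 * gn u x +
        2 * π * (Iso (u x) - r * gn u x))) ∧ IntegrableOn (fun x =>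
      ((1 + e * (1 - 2 * u x)) * gn u x + ((2 * π * r) ^ 2 * gn u x +
        2 * π * (Iso (u x) - r * gn u x)))) (Q (Fin d)) := by
    intro e he
    rw [abs_le] at he
    have hθ : ∀ y : ℝ, HasDerivAt (fun y => y + e * (y * (1 - y))) (1 + e * (1 - 2 * y)) y :=
      fun y => ((hasDerivAt_id y).add (((hasDerivAt_id y).mul
        ((hasDerivAt_id y).const_sub 1)).const_mul e)).congr_deriv
          (by simp only [id, one_mul]; ring)
    have hm : ∀ y ∈ Ioo (0 : ℝ) 1, 1 / 2 ≤ 1 + e * (1 - 2 * y) ∧ 1 + e * (1 - 2 * y) ≤ 2 :=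
      fun y hy => ⟨by nlinarith [hy.1, hy.2], by nlinarith [hy.1, hy.2]⟩
    have hv : Adm fun x => u x + e * (u x * (1 - u x)) :=
      hu.scomp (L := 2) hθ (fun y hy => abs_le.2 ⟨by linarith [(hm y hy).1], (hm y hy).2⟩)
        fun κ hκ => ⟨κ / 2, by positivity, fun y hy => by
          have h0 : 0 ≤ y := hκ.le.trans hy.1
          have h1 : 0 ≤ 1 - y := by linarith [hy.2]
          constructor
          · nlinarith [hy.1, mul_nonneg h0 h1, sq_nonneg y]
          · nlinarith [hy.2, mul_nonneg h0 h1, sq_nonneg (1 - y)]⟩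
    have hint : IntegrableOn (fun x =>
        ((1 + e * (1 - 2 * u x)) * gn u x + ((2 * π * r) ^ 2 * gn u x +
          2 * π * (Iso (u x) - r * gn u x)))) (Q (Fin d)) := by
      refine Integrable.add ?_ ((hu.integrableOn_gn.const_mul _).add
        ((hu.integrableOn_Iso.sub (hu.integrableOn_gn.const_mul r)).const_mul _))
      refine hu.integrableOn_gn.bdd_mul (c := 2) (aestronglyMeasurable_const.add
        ((aestronglyMeasurable_const.sub (hu.aesm.const_mul 2)).const_mul e))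
        ((ae_restrict_iff' measurableSet_Q).2 (Eventually.of_forall fun x hx => ?_))
      have := hm _ (hu.mem_Ioo hx)
      exact abs_le.2 ⟨by linarith [this.1], this.2⟩
    refine ⟨?_, hint⟩
    have h1 := J_le_bob hv
    rw [integral_add hu.integrableOn (hu.integrableOn_var.const_mul e), integral_const_mul] at h1
    refine h1.trans (setIntegral_mono_on hv.integrableOn_bob hint measurableSet_Q fun x hx => ?_)
    have hux := hu.mem_Ioo hx
    rw [gn_scomp (hu.diff x hx) (hθ _) (by linarith [(hm _ hux).1]), ← add_assoc]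
    refine sqrt_move (Iso_nonneg _) (iso_le_two hux (hv.mem_Ioo hx) ?_) (gn_nonneg _ _) hr (hg x)
      (hm _ hux).1
    have h0 : 0 ≤ u x * (1 - u x) := mul_nonneg hux.1.le (sub_pos.2 hux.2).le
    exact abs_le.2 ⟨by nlinarith, by nlinarith⟩
  obtain ⟨h1, i1⟩ := key (1 / 2) (abs_le.2 ⟨by norm_num, by norm_num⟩)
  obtain ⟨h2, i2⟩ := key (-(1 / 2)) (abs_le.2 ⟨by norm_num, by norm_num⟩)
  have h3 := add_le_add h1 h2
  rw [← integral_add i1 i2] at h3
  rw [← integral_const_mul, ← integral_const_mul, ← integral_add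
    (hu.integrableOn_gn.const_mul _) (hu.integrableOn_Iso.const_mul _)]
  refine le_of_eq_of_le ?_ (h3.trans_eq (integral_congr_ae (Eventually.of_forall fun x => ?_)))
  · congr 2 <;> ring
  · simp only; ring

/-- the transition layer of a smoothed function is not too thin -/
lemma J_le_layer {d : ℕ} {u : (Fin d → ℝ) → ℝ} (hu : Adm u) {r : ℝ} (hr : 0 < r)
    (hg : ∀ x, r * gn u x ≤ Iso (u x)) :
    ∃ t', |t' - ∫ x in Q (Fin d), u x| ≤ ∫ x in Q (Fin d), u x * (1 - u x) ∧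
      J t' ≤ 2 * π * (∫ x in Q (Fin d), Iso (u x)) +
        3 / r * ∫ x in Q (Fin d), u x * (1 - u x) := by
  have hθ : ∀ y : ℝ, HasDerivAt (fun y => 3 * y ^ 2 - 2 * y ^ 3) (6 * (y * (1 - y))) y :=
    fun y => (((hasDerivAt_pow 2 y).const_mul 3).sub
      ((hasDerivAt_pow 3 y).const_mul 2)).congr_deriv (by simp; ring)
  have hv : Adm fun x => 3 * u x ^ 2 - 2 * u x ^ 3 :=
    hu.scomp (L := 6) hθ (fun y hy => abs_le.2 ⟨by nlinarith [hy.1, hy.2], by nlinarith [hy.1, hy.2]⟩)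
      fun κ hκ => ⟨κ ^ 2, by positivity, fun y hy => by
        have h0 : 0 ≤ y := hκ.le.trans hy.1
        have h1 : κ ≤ 1 - y := by linarith [hy.2]
        have h2 : κ ^ 2 ≤ y ^ 2 := pow_le_pow_left₀ hκ.le hy.1 2
        have h3 : κ ^ 2 ≤ (1 - y) ^ 2 := pow_le_pow_left₀ hκ.le h1 2
        constructor
        · nlinarith [mul_nonneg (sq_nonneg y) (hκ.le.trans h1)]
        · nlinarith [mul_nonneg (sq_nonneg (1 - y)) h0]⟩
  have hd : ∀ x ∈ Q (Fin d), |3 * u x ^ 2 - 2 * u x ^ 3 - u x| ≤ u x * (1 - u x) := fun x hx => by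
    have hux := hu.mem_Ioo hx
    have h0 : 0 ≤ u x * (1 - u x) := mul_nonneg hux.1.le (sub_pos.2 hux.2).le
    exact abs_le.2 ⟨by nlinarith [mul_nonneg h0 hux.1.le],
      by nlinarith [mul_nonneg h0 (sub_pos.2 hux.2).le]⟩
  refine ⟨∫ x in Q (Fin d), (3 * u x ^ 2 - 2 * u x ^ 3), ?_, ?_⟩
  · rw [← integral_sub hv.integrableOn hu.integrableOn]
    exact abs_integral_le_integral_abs.trans (setIntegral_mono_on
      (hv.integrableOn.sub hu.integrableOn).abs hu.integrableOn_var measurableSet_Q hd)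
  · refine ((J_le_bob hv).trans (bob_le_add hv)).trans (add_le_add ?_ ?_)
    · rw [mul_comm 2 π, mul_assoc, ← integral_const_mul 2]
      refine mul_le_mul_of_nonneg_left ?_ pi_pos.le
      exact setIntegral_mono_on hv.integrableOn_Iso (hu.integrableOn_Iso.const_mul 2)
        measurableSet_Q fun x hx => iso_le_two (hu.mem_Ioo hx) (hv.mem_Ioo hx) (hd x hx)
    · rw [← integral_const_mul]
      refine setIntegral_mono_on hv.integrableOn_gn (hu.integrableOn_var.const_mul _)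
        measurableSet_Q fun x hx => ?_
      have hux := hu.mem_Ioo hx
      have h0 : 0 ≤ u x * (1 - u x) := mul_nonneg hux.1.le (sub_pos.2 hux.2).le
      rw [gn_scomp (hu.diff x hx) (hθ _) (by positivity)]
      have h1 : gn u x ≤ 1 / 2 / r := by
        rw [le_div_iff₀ hr, mul_comm]; exact (hg x).trans (Iso_le_half _)
      calc _ ≤ 6 * (u x * (1 - u x)) * (1 / 2 / r) := by gcongr
        _ = _ := by ring

end

end Pool.Agent.P.MP_b7645d_gt
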