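import Pool.Agent.P.MP_b7645d_gt.H.IsoB
import Pool.Agent.P.MP_b7645d_gt.Final

set_option autoImplicit false

open MeasureTheory ProbabilityTheory Set Real Filter Topology

namespace Pool.Agent.P.MP_b7645d_gt

lemma J_pos {t : ℝ} (ht : t ∈ Ioo (0 : ℝ) 1) : 0 < J t := (Iso_pos ht).trans_le (iso_le_J ht)

lemma exists_prof_lt {t : ℝ} (ht : t ∈ Ioo (0 : ℝ) 1) (N : ℕ) {β : ℝ} (hβ : 0 < β) :
    ∃ n, N ≤ n ∧ Prof n t < ENNReal.ofReal (J t + β) := by
  obtain ⟨d, u, hu, hut, hb⟩ := exists_bob_lt ht (η := β / 3) (by positivity)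
  obtain ⟨n, hn, hle⟩ := prof_le_bob hu N (η := β / 3) (by positivity)
  rw [hut] at hle
  have := J_pos ht
  exact ⟨n, hn, hle.trans_lt ((ENNReal.ofReal_lt_ofReal_iff (by linarith)).2 (by linarith))⟩

lemma exists_near_of_lt {t : ℝ} (ht : t ∈ Ioo (0 : ℝ) 1) {n : ℕ} {β : ℝ} (hβ : 0 < β)
    (h : Prof n t < ENNReal.ofReal (J t + β)) :
    ∃ f : (Fin n → ℝ) → ℝ, GAdm f ∧ Sym 1 f ∧ ∫ x in Q (Fin n), f x = t ∧
      ∫ x in Q (Fin n), gn f x ≤ J t + β ∧ ∫ x in Q (Fin n), Iso (f x) ≤ β := by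
  simp only [Prof, iInf_lt_iff] at h
  obtain ⟨E, hE, hEQ, hvol, hPer⟩ := h
  exact exists_smooth hE hEQ ht hvol (by linarith [J_pos ht]) hPer.le hβ

lemma semi_arith {r I P S W A X : ℝ} (hr : 0 < r) (hr1 : r ≤ 1) (hI0 : 0 < I) (hIP : I ≤ P)
    (hPI : P ≤ 4 * I) (h7 : r * I ≤ 6 * S) (hW : W ≤ P + 2 * (r ^ 2 * P))
    (hA : A ≤ r * (P + 2 * (r ^ 2 * P)))
    (h1 : X ≤ (2 + 2 * (2 * π * r) ^ 2 - 4 * π * r) * W + 4 * π * A) :
    X - 2 * P ≤ 240000 * (S / 2) ^ 2 / I := by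
  have hπ := pi_pos
  have hr2' : r ^ 2 ≤ 1 := pow_le_one₀ hr.le hr1
  have h8 : 0 ≤ 2 + 2 * (2 * π * r) ^ 2 - 4 * π * r := by nlinarith [sq_nonneg (2 * π * r - 1)]
  have h9 : X ≤ (2 + 2 * (2 * π * r) ^ 2) * (P + 2 * (r ^ 2 * P)) := by
    have a1 := mul_le_mul_of_nonneg_left hW h8
    have a2 := mul_le_mul_of_nonneg_left hA (show 0 ≤ 4 * π by positivity)
    linarith
  have h10 : (2 * π * r) ^ 2 ≤ 64 * r ^ 2 := by
    have : π ^ 2 ≤ 16 := by nlinarith [pi_le_four]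
    nlinarith [sq_nonneg r]
  have hP0 : 0 < P := hI0.trans_le hIP
  have h11 : X - 2 * P ≤ 400 * (r ^ 2 * P) := by
    have a1 : (2 + 2 * (2 * π * r) ^ 2) * (P + 2 * (r ^ 2 * P)) ≤
        (2 + 2 * (64 * r ^ 2)) * (P + 2 * (r ^ 2 * P)) := by gcongr
    have a2 : r ^ 2 * (r ^ 2 * P) ≤ 1 * (r ^ 2 * P) := by gcongr
    have a3 : 0 ≤ r ^ 2 * P := by positivity
    linarith
  refine h11.trans ?_
  rw [le_div_iff₀ hI0]
  have a1 : (r * I) ^ 2 ≤ (6 * S) ^ 2 := pow_le_pow_left₀ (by positivity) h7 2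
  have a2 : r ^ 2 * P * I ≤ r ^ 2 * (4 * I) * I := by gcongr
  nlinarith [sq_nonneg S]

/-- the relaxed profile is semiconcave, at arbitrarily small scales -/
theorem J_second_diff {t : ℝ} (ht : t ∈ Ioo (0 : ℝ) 1) {δ : ℝ} (hδ : 0 < δ) :
    ∃ s, 0 < s ∧ s < δ ∧ J (t + s) + J (t - s) - 2 * J t ≤ 240000 * s ^ 2 / Iso t := by
  set I := Iso t with hI
  set P := J t with hP
  have hI0 : 0 < I := Iso_pos ht
  have hI1 : I ≤ 1 / 2 := Iso_le_half t
  have hIP : I ≤ P := iso_le_J ht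
  have hPI : P ≤ 4 * I := (J_le_iso ht).trans (by gcongr; exact pi_le_four)
  have hc : 0 < Iso (1 / 2) := Iso_pos ⟨by norm_num, by norm_num⟩
  obtain ⟨δ₁, hδ₁, h₁⟩ : ∃ δ₁ > 0, ∀ t', |t' - t| < δ₁ → t' ∈ Ioo (0 : ℝ) 1 ∧ 3 / 4 * I < Iso t' := by
    have e1 : ∀ᶠ t' in 𝓝 t, t' ∈ Ioo (0 : ℝ) 1 := isOpen_Ioo.eventually_mem ht
    have e2 : ∀ᶠ t' in 𝓝 t, 3 / 4 * I < Iso t' :=
      continuousAt_const.eventually_lt continuous_Iso.continuousAt (by linarith)
    obtain ⟨ε, hε, h⟩ := Metric.eventually_nhds_iff.1 (e1.and e2)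
    exact ⟨ε, hε, fun t' ht' => h (by rwa [Real.dist_eq])⟩
  obtain ⟨r, ⟨⟨hr, hr1⟩, -, hr2⟩, -, hr3⟩ := (((eventually_small (c := 200) one_pos).and
    (eventually_small (c := 3) (mul_pos hc hδ))).and
    (eventually_small (c := 3) (mul_pos hc hδ₁))).exists
  have hr1' : r ≤ 1 := by linarith
  have hβ : 0 < r ^ 3 * I := by positivity
  obtain ⟨n, -, hn⟩ := exists_prof_lt ht 0 hβ
  obtain ⟨f, hf, hs, hft, hV, hfI⟩ := exists_near_of_lt ht hβ hn
  have hm := hf.diff.continuous.measurable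
  have hu := (hf.heat hr).adm
  have hg : ∀ x, r * gn (heat r f) x ≤ Iso (heat r f x) := by
    obtain ⟨κ, hκ, hκ'⟩ := hf.range
    exact gn_heat_le hm hκ hκ' hr
  have hut : ∫ x in Q (Fin n), heat r f x = t := by
    rw [integral_heat hm hf.abs_le_one hs, hft]
  have hA := integral_iso_heat_le hf hs hr
  have h1 := J_add_J_le hu hr hg
  obtain ⟨t', ht', h2⟩ := J_le_layer hu hr hg
  rw [hut] at h1 ht'
  have hW : r * ∫ x in Q (Fin n), gn (heat r f) x ≤ ∫ x in Q (Fin n), Iso (heat r f x) := by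
    rw [← integral_const_mul]
    exact integral_mono (hu.integrableOn_gn.const_mul r) hu.integrableOn_Iso hg
  have hS : Iso (1 / 2) * ∫ x in Q (Fin n), heat r f x * (1 - heat r f x) ≤
      ∫ x in Q (Fin n), Iso (heat r f x) := by
    rw [← integral_const_mul]
    exact setIntegral_mono_on (hu.integrableOn_var.const_mul _) hu.integrableOn_Iso
      measurableSet_Q fun x hx => mul_one_sub_le_iso (hu.mem_Ioo hx)
  set S := ∫ x in Q (Fin n), heat r f x * (1 - heat r f x)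
  set A := ∫ x in Q (Fin n), Iso (heat r f x)
  set W := ∫ x in Q (Fin n), gn (heat r f) x
  set V := ∫ x in Q (Fin n), gn f x
  have hr2' : r ^ 2 ≤ 1 := pow_le_one₀ hr.le hr1'
  have hr3' : r ^ 3 ≤ r ^ 2 := by nlinarith [sq_nonneg r]
  have e0 : r ^ 3 * I ≤ r ^ 2 * I := by gcongr
  have e1 : r ^ 2 * I ≤ r ^ 2 * P := by gcongr
  have hA' : A ≤ r * (P + 2 * (r ^ 2 * P)) := by
    have : r * V ≤ r * (P + r ^ 2 * P) := by gcongr; linarith
    have : r * (r ^ 2 * I) ≤ r * (r ^ 2 * P) := by gcongr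
    nlinarith
  have hW' : W ≤ P + 2 * (r ^ 2 * P) := le_of_mul_le_mul_left (hW.trans hA') hr
  have e2 : r ^ 2 * P ≤ 1 / 8 * P := by gcongr; · linarith
                                        · nlinarith
  have hA2 : A ≤ r * (5 * I) := hA'.trans (by gcongr; linarith)
  have hA3 : A ≤ r * 3 := hA2.trans (by gcongr; linarith)
  have hSδ : S < δ := lt_of_mul_lt_mul_left (by linarith) hc.le
  have hSδ₁ : S < δ₁ := lt_of_mul_lt_mul_left (by linarith) hc.le
  obtain ⟨h3, h4⟩ := h₁ t' (ht'.trans_lt hSδ₁)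
  have h5 : 2 * π * A ≤ I / 4 := by
    have : 2 * π * A ≤ 2 * 4 * (r * (5 * I)) := by
      have hA0 : 0 ≤ A := integral_nonneg fun x => Iso_nonneg _
      gcongr; exact pi_le_four
    nlinarith
  have h6 : I / 2 ≤ 3 / r * S := by linarith [iso_le_J h3]
  have h7 : r * I ≤ 6 * S := by
    have := mul_le_mul_of_nonneg_left h6 hr.le
    rw [← mul_assoc, mul_div_cancel₀ _ hr.ne'] at this
    linarith
  have hS0 : 0 < S := by nlinarith [mul_pos hr hI0]
  refine ⟨S / 2, by positivity, by linarith, ?_⟩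
  exact semi_arith hr hr1' hI0 hIP hPI h7 hW' hA' h1

/-- small negative second differences force a continuous function above its chords -/
lemma chord_le {G : ℝ → ℝ} {a b : ℝ} (hab : a < b) (hc : ContinuousOn G (Icc a b))
    (h : ∀ x ∈ Ioo a b, ∀ δ > 0, ∃ s, 0 < s ∧ s < δ ∧ G (x + s) + G (x - s) < 2 * G x)
    {x : ℝ} (hx : x ∈ Icc a b) : G a + (G b - G a) / (b - a) * (x - a) ≤ G x := by
  set m := (G b - G a) / (b - a) with hm
  have hc' : ContinuousOn (fun y => G y - m * (y - a)) (Icc a b) := hc.sub (by fun_prop)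
  obtain ⟨z, hz, hmin⟩ := isCompact_Icc.exists_isMinOn ⟨a, left_mem_Icc.2 hab.le⟩ hc'
  have hmin' : ∀ y ∈ Icc a b, G z - m * (z - a) ≤ G y - m * (y - a) := fun y hy => hmin hy
  have h1 := hmin' x hx
  rcases hz.1.eq_or_lt with rfl | h2
  · linarith
  rcases hz.2.eq_or_lt with rfl | h3
  · have : m * (z - a) = G z - G a := by rw [hm]; field_simp [(sub_pos.2 hab).ne']
    linarith
  obtain ⟨s, hs0, hs, h4⟩ := h z ⟨h2, h3⟩ (min (z - a) (b - z)) (lt_min (by linarith) (by linarith))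
  rw [lt_min_iff] at hs
  have h5 := hmin' (z + s) ⟨by linarith, by linarith [hs.2]⟩
  have h6 := hmin' (z - s) ⟨by linarith [hs.1], by linarith⟩
  nlinarith

/-- one-sided slope bounds at every small volume -/
theorem J_slopes {t : ℝ} (ht0 : 0 < t) (ht1 : 8 * t < Phi (-2000)) :
    ∃ b ρ : ℝ, 128 < b ∧ 0 < ρ ∧ ∀ s, 0 ≤ s → s ≤ ρ →
      J t + 128 * s ≤ J (t + s) ∧ J t - b * s ≤ J (t - s) := by
  have hΦ : Phi (-2000) < 1 / 2 := by
    have h1 := Phi_neg 0
    rw [neg_zero] at h1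
    have h2 : Phi (-2000) < Phi 0 := strictMono_Phi (by norm_num)
    linarith
  have h8 : 8 * t ∈ Ioo (0 : ℝ) 1 := ⟨by linarith, by linarith⟩
  have ht : t ∈ Ioo (0 : ℝ) 1 := ⟨ht0, by linarith⟩
  set y := -PhiInv (8 * t) with hy
  have hy0 : 2000 ≤ y := by
    have := PhiInv_mono h8 (Phi_mem_Ioo _) ht1.le
    rw [PhiInv_Phi] at this
    linarith
  set K := 250000 / (y * t) with hK
  have hK0 : 0 < K := by positivity
  have hKt : K * t ≤ 125 := by
    rw [hK, div_mul_eq_mul_div, div_le_iff₀ (by positivity)]; nlinarith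
  have hG : ∀ x ∈ Ioo (t / 2) (8 * t), ∀ δ > 0, ∃ s, 0 < s ∧ s < δ ∧
      (J (x + s) - K * (x + s) ^ 2) + (J (x - s) - K * (x - s) ^ 2) < 2 * (J x - K * x ^ 2) := by
    intro x hx δ hδ
    have hx1 : x ∈ Ioo (0 : ℝ) 1 := ⟨by linarith [hx.1], by linarith [hx.2]⟩
    obtain ⟨s, hs0, hs, h⟩ := J_second_diff hx1 hδ
    refine ⟨s, hs0, hs, ?_⟩
    have h1 : y * (t / 2) ≤ Iso x := by
      refine le_trans ?_ (neg_PhiInv_mul_le hx1)
      have := PhiInv_mono hx1 h8 hx.2.le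
      exact mul_le_mul (by linarith) hx.1.le (by positivity) (by linarith)
    have h2 : 240000 * s ^ 2 / Iso x ≤ 240000 * s ^ 2 / (y * (t / 2)) := by gcongr
    have h3 : 240000 * s ^ 2 / (y * (t / 2)) < 2 * K * s ^ 2 := by
      rw [hK, div_lt_iff₀ (by positivity)]
      have : 2 * (250000 / (y * t)) * s ^ 2 * (y * (t / 2)) = 250000 * s ^ 2 := by field_simp
      rw [this]; nlinarith [sq_pos_of_pos hs0]
    nlinarith
  have hc : ContinuousOn (fun x => J x - K * x ^ 2) (Icc (t / 2) (8 * t)) :=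
    ((continuousOn_J (half_pos ht0)).mono (Icc_subset_Icc le_rfl (by linarith))).sub (by fun_prop)
  have hJ : 7 * t * (128 + 7 * 125) ≤ J (8 * t) - J t := by
    have a1 := neg_PhiInv_mul_le h8
    have a2 := iso_le_mills h8 (by linarith)
    have a3 := iso_tangent h8 ht
    have a4 := iso_le_J h8
    have a5 : J t ≤ 4 * Iso t :=
      (J_le_iso ht).trans (mul_le_mul_of_nonneg_right pi_le_four (Iso_nonneg t))
    rw [← hy] at a1 a2
    have a6 : Iso t ≤ (y + 24) * t := by rw [hy] at *; nlinarith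
    nlinarith
  refine ⟨129 + |(J t - J (t / 2)) / (t / 2)| + K * t, t / 2, by
      have := abs_nonneg ((J t - J (t / 2)) / (t / 2))
      have := mul_pos hK0 ht0
      linarith, half_pos ht0,
    fun s hs0 hs => ⟨?_, ?_⟩⟩
  · have h1 := chord_le (G := fun x => J x - K * x ^ 2) (a := t) (b := 8 * t) (by linarith)
      (hc.mono (Icc_subset_Icc (by linarith) le_rfl))
      (fun x hx => hG x ⟨by linarith [hx.1], hx.2⟩) (x := t + s) ⟨by linarith, by linarith⟩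
    have h2 : 128 + 7 * 125 - 9 * (K * t) ≤
        (J (8 * t) - K * (8 * t) ^ 2 - (J t - K * t ^ 2)) / (8 * t - t) := by
      rw [le_div_iff₀ (by linarith)]; nlinarith
    have h3 := mul_le_mul_of_nonneg_right h2 hs0
    simp only [add_sub_cancel_left] at h1
    nlinarith [mul_nonneg hK0.le (sq_nonneg s), mul_le_mul_of_nonneg_right hKt hs0]
  · have h1 := chord_le (G := fun x => J x - K * x ^ 2) (a := t / 2) (b := t) (by linarith)
      (hc.mono (Icc_subset_Icc le_rfl (by linarith)))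
      (fun x hx => hG x ⟨hx.1, by linarith [hx.2]⟩) (x := t - s) ⟨by linarith, by linarith⟩
    set m := (J t - J (t / 2)) / (t / 2) with hm
    have h2 : (J t - K * t ^ 2 - (J (t / 2) - K * (t / 2) ^ 2)) / (t - t / 2) =
        m - 3 / 2 * (K * t) := by rw [hm]; field_simp; ring
    have h3 : J t - J (t / 2) = m * (t / 2) := by rw [hm]; field_simp
    simp only [h2] at h1
    nlinarith [mul_nonneg hK0.le (sq_nonneg s), mul_le_mul_of_nonneg_right (le_abs_self m) hs0,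
      mul_nonneg (mul_pos hK0 ht0).le hs0]

end Pool.Agent.P.MP_b7645d_gt
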