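import Pool.Agent.P.MP_b7645d_gt.H.Semi

set_option autoImplicit false

open MeasureTheory ProbabilityTheory Set Real Filter Topology

namespace Pool.Agent.P.MP_b7645d_gt

lemma test_bounds' (p a b T : ℝ) : ∃ B, 0 ≤ B ∧ ∀ H ∈ Icc a b, ∀ c n, |c| ≤ T → |n| ≤ 1 →
    |Ps p H c n| ≤ B * |n| ∧ |Px p c n| ≤ B ∧ |Pn p H c n| ≤ B := by
  have hK : IsCompact (Icc a b ×ˢ Icc (-T) T ×ˢ Icc (-1 : ℝ) 1) :=
    isCompact_Icc.prod (isCompact_Icc.prod isCompact_Icc)
  have hc : Continuous fun w : ℝ × ℝ × ℝ =>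
      |p * w.2.1 * w.2.2 * (1 - w.2.2 ^ 2) ^ 4 - w.1 * (w.2.2 ^ 2 / 3 - 3 * w.2.2 ^ 4 / 10)| +
        |Px p w.2.1 w.2.2| + |Pn p w.1 w.2.1 w.2.2| := by
    unfold Px Pn; fun_prop
  obtain ⟨B, hB⟩ := hK.exists_bound_of_continuousOn hc.continuousOn
  refine ⟨|B|, abs_nonneg _, fun H hH c n hc hn => ?_⟩
  have h := ((le_abs_self _).trans (hB (H, c, n) ⟨hH, abs_le.1 hc, abs_le.1 hn⟩)).trans
    (le_abs_self B)
  simp only at h
  have h1 := abs_nonneg (p * c * n * (1 - n ^ 2) ^ 4 - H * (n ^ 2 / 3 - 3 * n ^ 4 / 10))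
  have h2 := abs_nonneg (Px p c n)
  have h3 := abs_nonneg (Pn p H c n)
  refine ⟨?_, by linarith, by linarith⟩
  have : Ps p H c n = (p * c * n * (1 - n ^ 2) ^ 4 - H * (n ^ 2 / 3 - 3 * n ^ 4 / 10)) * n := by
    unfold Ps; ring
  rw [this, abs_mul]
  exact mul_le_mul_of_nonneg_right (by linarith) (abs_nonneg _)

/-- choice of a multiplier between the two one-sided slopes -/
lemma exists_mult {a b Ua Ub : ℝ} (hab : a < b) : ∃ H ∈ Icc a b,
    (Ua + (H - a) / (b - a) * (Ub - Ua) ≤ 0 ∧ H ≤ a) ∨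
      (0 ≤ Ua + (H - a) / (b - a) * (Ub - Ua) ∧ b ≤ H) ∨
        Ua + (H - a) / (b - a) * (Ub - Ua) = 0 := by
  have hba := sub_pos.2 hab
  rcases le_or_gt Ua 0 with h1 | h1
  · exact ⟨a, left_mem_Icc.2 hab.le, Or.inl ⟨by simpa using h1, le_rfl⟩⟩
  rcases le_or_gt 0 Ub with h2 | h2
  · exact ⟨b, right_mem_Icc.2 hab.le, Or.inr (Or.inl ⟨by rw [div_self hba.ne']; linarith, le_rfl⟩)⟩
  have h3 : 0 < Ua - Ub := by linarith
  have h4 : Ua / (Ua - Ub) ≤ 1 := (div_le_one h3).2 (by linarith)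
  refine ⟨a + Ua / (Ua - Ub) * (b - a), ⟨le_add_of_nonneg_right (by positivity), by nlinarith⟩,
    Or.inr (Or.inr ?_)⟩
  field_simp
  ring

/-- almost stationarity, with one-sided slopes -/
theorem stepC' {N : ℕ} {f Φ : (Fin N → ℝ) → ℝ} (hf : Adm f) (i : Fin N) {t a b H ρ β C ε : ℝ}
    (supp : ∀ s, 0 ≤ s → s ≤ ρ → J t + a * s ≤ J (t + s) ∧ J t - b * s ≤ J (t - s))
    (hH : (∫ x in Q (Fin N), Φ x * D f i x ≤ 0 ∧ H ≤ a) ∨
      (0 ≤ ∫ x in Q (Fin N), Φ x * D f i x ∧ b ≤ H) ∨ ∫ x in Q (Fin N), Φ x * D f i x = 0)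
    (hft : ∫ x in Q (Fin N), f x = t) (hV : ∫ x in Q (Fin N), gn f x ≤ J t + β)
    (hI : ∫ x in Q (Fin N), Iso (f x) ≤ β) (hC : 0 ≤ C) (hε : 0 < ε) (hεC : ε * C * N ≤ 1 / 2)
    (hερ : ε * (C * (J t + β)) ≤ ρ) (hΦ : ∀ x ∈ Q (Fin N), DifferentiableAt ℝ Φ x)
    (hΦ' : ∀ x ∈ Q (Fin N), ∀ j, |D Φ j x| ≤ C)
    (hΦ0 : ∀ x ∈ Q (Fin N), |Φ x| ≤ C * min (x i) (1 - x i)) :
    -((2 * π + 1) * β / ε + ε * (2 * N * C ^ 2) * (J t + β)) ≤
      ∫ x in Q (Fin N), ((D Φ i x * gn f x - D f i x * (∑ j, D f j x * D Φ j x) / gn f x) +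
        H * (Φ x * D f i x)) := by
  obtain ⟨g, hg, h1, h2, h3⟩ := firstVar hf i hC hε (by simpa using hεC) hΦ hΦ' hΦ0
  have iU := integrableOn_mul_D hf i hC hΦ hΦ0
  rw [integral_add (integrableOn_var hf i hΦ') (iU.const_mul H), integral_const_mul]
  set W := ∫ x in Q (Fin N), (D Φ i x * gn f x - D f i x * (∑ j, D f j x * D Φ j x) / gn f x)
  set U := ∫ x in Q (Fin N), Φ x * D f i x with hUdef
  set V := ∫ x in Q (Fin N), gn f x with hVdef
  have hU : |U| ≤ C * (J t + β) := by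
    refine le_trans ?_ (mul_le_mul_of_nonneg_left hV hC)
    rw [hVdef, ← integral_const_mul]
    exact abs_integral_le_integral_abs.trans (setIntegral_mono_on iU.abs
      (hf.integrableOn_gn.const_mul C) measurableSet_Q fun x hx => abs_mul_D_le i hC hΦ0 hx)
  have hU' := (mul_le_mul_of_nonneg_left hU hε.le).trans hερ
  have h4 : J t - H * (ε * U) ≤ J (t - ε * U) := by
    rcases hH with ⟨h, h'⟩ | ⟨h, h'⟩ | h
    · rw [abs_of_nonpos h] at hU'
      have h0 : 0 ≤ ε * -U := mul_nonneg hε.le (by linarith)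
      have := (supp _ h0 hU').1
      rw [show t + ε * -U = t - ε * U by ring] at this
      nlinarith [mul_le_mul_of_nonneg_right h' h0]
    · rw [abs_of_nonneg h] at hU'
      have h0 : 0 ≤ ε * U := mul_nonneg hε.le h
      have := (supp _ h0 hU').2
      nlinarith [mul_le_mul_of_nonneg_right h' h0]
    · simp [h]
  have h5 := (J_le_bob hg).trans (bob_le_add hg)
  rw [h1, hft] at h5
  rw [Fintype.card_fin] at h3
  have h6 : π * ∫ x in Q (Fin N), Iso (g x) ≤ π * (2 * β) := by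
    gcongr; linarith
  have h8 : ε ^ 2 * (2 * N * C ^ 2) * V ≤ ε ^ 2 * (2 * N * C ^ 2) * (J t + β) := by gcongr
  refine le_of_mul_le_mul_left ?_ hε
  have : ε * -((2 * π + 1) * β / ε + ε * (2 * N * C ^ 2) * (J t + β)) =
      -((2 * π + 1) * β + ε ^ 2 * (2 * N * C ^ 2) * (J t + β)) := by field_simp
  rw [this]
  nlinarith

/-- the main inequality -/
theorem stepD' {N : ℕ} (hN : 0 < N) {f : (Fin N → ℝ) → ℝ} (hf : GAdm f) (hs : Sym 1 f)
    {t b ρ β ε r ϑ p B : ℝ}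
    (supp : ∀ s, 0 ≤ s → s ≤ ρ → J t + 128 * s ≤ J (t + s) ∧ J t - b * s ≤ J (t - s))
    (hab : 128 < b) (hp0 : 0 < p) (hp : p < π) (hB : 0 ≤ B)
    (hB' : ∀ H ∈ Icc 128 b, ∀ c n, |c| ≤ tan (p / 2) → |n| ≤ 1 →
      |Ps p H c n| ≤ B * |n| ∧ |Px p c n| ≤ B ∧ |Pn p H c n| ≤ B)
    (hft : ∫ x in Q (Fin N), f x = t) (hV : ∫ x in Q (Fin N), gn f x ≤ J t + β)
    (hI : ∫ x in Q (Fin N), Iso (f x) ≤ β) (hβ : 0 ≤ β) (hr : 0 < r) (hr' : π * r < 1)
    (hϑ : 0 < ϑ) (hε : 0 < ε) (hεC : ε * (B + B * (1 / r)) * N ≤ 1 / 2)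
    (hερ : ε * ((B + B * (1 / r)) * (J t + β)) ≤ ρ) :
    (p ^ 2 + 1 / N) * (J t - π * β) - (2 * (B + B ^ 2 / 4) + b * B + 36) * N * ϑ * (J t + β) -
      N * ((2 * π + 1) * β / ε + ε * (2 * N * (B + B * (1 / r)) ^ 2) * (J t + β)) ≤
      (2 / r ^ 2 + 2 * (2 * (B + B ^ 2 / 4) + b * B + 36) / ϑ) *
        (((π * r) ^ 2 / 2 * (J t + β) + (π + 1) * β) / (1 - π * r)) := by
  have hm := hf.diff.continuous.measurable
  have hP : J t ≤ Bob (heat r f) := by
    have := J_le_bob (hf.heat hr).adm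
    rwa [integral_heat hm hf.abs_le_one hs, hft] at this
  obtain ⟨ζ, hζd, hζb, hDζ, hζ0, hE⟩ := stepAB hf hs hr hr' hP hV hI hβ
  set C₂ := 2 * (B + B ^ 2 / 4) + b * B + 36 with hC₂
  have hC₂0 : 0 ≤ C₂ := by have : 0 ≤ b := by linarith
                           positivity
  set C := B + B * (1 / r) with hC
  have hC0 : 0 ≤ C := by positivity
  set η := (2 * π + 1) * β / ε + ε * (2 * N * C ^ 2) * (J t + β)
  set V := ∫ x in Q (Fin N), gn f x with hVdef
  have hV' : J t - π * β ≤ V := by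
    have h1 := (J_le_bob hf.adm).trans (bob_le_add hf.adm)
    rw [hft] at h1
    nlinarith [pi_pos]
  set Ψ : ℝ → Fin N → (Fin N → ℝ) → ℝ := fun H i y => Ps p H (cc p (y i)) (ζ i y) with hΨdef
  have hb := fun H (hH : H ∈ Icc 128 b) i x (hx : x ∈ Q (Fin N)) =>
    hB' H hH _ _ (abs_cc_le hp0 hp (hx i)) (hζb i x)
  have hΨ : ∀ H i, ∀ x ∈ Q (Fin N), DifferentiableAt ℝ (Ψ H i) x := fun H i x hx =>
    (hasFDerivAt_test hp0 hp i hx (hζd i x)).differentiableAt
  have hΨ' : ∀ H ∈ Icc 128 b, ∀ i, ∀ x ∈ Q (Fin N), ∀ j, |D (Ψ H i) j x| ≤ C :=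
    fun H hH i x hx j => by
    rw [D_test hp0 hp i hx (hζd i x)]
    refine (abs_add_le _ _).trans (add_le_add ?_ ?_)
    · split_ifs
      · exact (hb H hH i x hx).2.1
      · simpa using hB
    · rw [abs_mul]; exact mul_le_mul (hb H hH i x hx).2.2 (hDζ i j x) (abs_nonneg _) hB
  have hΨ0 : ∀ H ∈ Icc 128 b, ∀ i, ∀ x ∈ Q (Fin N), |Ψ H i x| ≤ C * min (x i) (1 - x i) :=
    fun H hH i x hx => by
    have h0 : 0 ≤ min (x i) (1 - x i) := le_min (hx i).1.le (sub_pos.2 (hx i).2).le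
    refine (hb H hH i x hx).1.trans ((mul_le_mul_of_nonneg_left (hζ0 i x hx) hB).trans ?_)
    rw [← mul_assoc]
    gcongr
    linarith
  have haff : ∀ H i, ∫ x in Q (Fin N), Ψ H i x * D f i x =
      (∫ x in Q (Fin N), Ψ 128 i x * D f i x) + (H - 128) / (b - 128) *
        ((∫ x in Q (Fin N), Ψ b i x * D f i x) - ∫ x in Q (Fin N), Ψ 128 i x * D f i x) := by
    intro H i
    have ia := integrableOn_mul_D hf.adm i hC0 (hΨ 128 i) (hΨ0 _ (left_mem_Icc.2 hab.le) i)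
    have ib := integrableOn_mul_D hf.adm i hC0 (hΨ b i) (hΨ0 _ (right_mem_Icc.2 hab.le) i)
    have ic : IntegrableOn (fun x => (H - 128) / (b - 128) *
        (Ψ b i x * D f i x - Ψ 128 i x * D f i x)) (Q (Fin N)) := (ib.sub ia).const_mul _
    rw [← integral_sub ib ia, ← integral_const_mul, ← integral_add ia ic]
    refine integral_congr_ae (Eventually.of_forall fun x => ?_)
    have : b - 128 ≠ 0 := (sub_pos.2 hab).ne'
    simp only [hΨdef, Ps]
    field_simp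
    ring
  choose H hH hHU using fun i => exists_mult (Ua := ∫ x in Q (Fin N), Ψ 128 i x * D f i x)
    (Ub := ∫ x in Q (Fin N), Ψ b i x * D f i x) hab
  simp only [← haff] at hHU
  set Φ : Fin N → (Fin N → ℝ) → ℝ := fun i => Ψ (H i) i with hΦdef
  have hΦ : ∀ i, ∀ x ∈ Q (Fin N), DifferentiableAt ℝ (Φ i) x := fun i => hΨ _ i
  have hΦ' : ∀ i, ∀ x ∈ Q (Fin N), ∀ j, |D (Φ i) j x| ≤ C := fun i => hΨ' _ (hH i) i
  have hΦ0 : ∀ i, ∀ x ∈ Q (Fin N), |Φ i x| ≤ C * min (x i) (1 - x i) := fun i => hΨ0 _ (hH i) i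
  set G : Fin N → (Fin N → ℝ) → ℝ := fun i x =>
    (D (Φ i) i x * gn f x - D f i x * (∑ j, D f j x * D (Φ i) j x) / gn f x) +
      H i * (Φ i x * D f i x) with hG
  have hGi : ∀ i, IntegrableOn (G i) (Q (Fin N)) := fun i =>
    (integrableOn_var hf.adm i (hΦ' i)).add
      ((integrableOn_mul_D hf.adm i hC0 (hΦ i) (hΦ0 i)).const_mul (H i))
  have hGη : ∀ i, -η ≤ ∫ x in Q (Fin N), G i x := fun i =>
    stepC' hf.adm i supp (hHU i) hft hV hI hC0 hε hεC hερ (hΦ i) (hΦ' i) (hΦ0 i)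
  have hsum : -(N * η) ≤ ∫ x in Q (Fin N), ∑ i, G i x := by
    rw [integral_finsetSum _ fun i _ => hGi i]
    have := Finset.sum_le_sum fun i (_ : i ∈ Finset.univ) => hGη i
    simpa using this
  have iE : IntegrableOn (fun x => gn f x * (r ^ 2 * (∑ i, ∑ j, D (ζ i) j x ^ 2) / 2 +
      (∑ i, (D f i x / gn f x - ζ i x) ^ 2) / 2)) (Q (Fin N)) := by
    refine hf.adm.integrableOn_gn.mul_bdd (c := r ^ 2 * (∑ _i : Fin N, ∑ _j : Fin N, (1 / r) ^ 2) / 2
      + (∑ _i : Fin N, (2 : ℝ) ^ 2) / 2) (Measurable.aestronglyMeasurable ?_)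
      (Eventually.of_forall fun x => ?_)
    · exact (((Finset.measurable_sum _ fun i _ => Finset.measurable_sum _ fun j _ =>
        (measurable_D _ _).pow_const 2).const_mul _).div_const 2).add
        ((Finset.measurable_sum _ fun i _ => (((measurable_D _ _).div (measurable_gn _)).sub
          (hζd i).continuous.measurable).pow_const 2).div_const 2)
    · rw [Real.norm_eq_abs, abs_of_nonneg (by positivity)]
      have e1 : ∀ i j, D (ζ i) j x ^ 2 ≤ (1 / r) ^ 2 := fun i j => by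
        rw [← sq_abs]; exact pow_le_pow_left₀ (abs_nonneg _) (hDζ i j x) 2
      have e2 : ∀ i, (D f i x / gn f x - ζ i x) ^ 2 ≤ 2 ^ 2 := fun i => by
        rw [← sq_abs]
        exact pow_le_pow_left₀ (abs_nonneg _) ((abs_sub _ _).trans
          (by linarith [abs_D_div_gn_le f i x, hζb i x])) 2
      have e3 := Finset.sum_le_sum fun i (_ : i ∈ Finset.univ) =>
        Finset.sum_le_sum fun j (_ : j ∈ Finset.univ) => e1 i j
      have e4 := Finset.sum_le_sum fun i (_ : i ∈ Finset.univ) => e2 i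
      have e5 := mul_le_mul_of_nonneg_left e3 (sq_nonneg r)
      linarith
  have iG : Integrable (fun x => ∑ i, G i x) (volume.restrict (Q (Fin N))) :=
    integrable_finsetSum _ fun i _ => hGi i
  have key : ∫ x in Q (Fin N), (∑ i, G i x + (p ^ 2 + 1 / N - C₂ * N * ϑ) * gn f x) ≤
      ∫ x in Q (Fin N), (2 / r ^ 2 + 2 * C₂ / ϑ) * (gn f x *
        (r ^ 2 * (∑ i, ∑ j, D (ζ i) j x ^ 2) / 2 +
          (∑ i, (D f i x / gn f x - ζ i x) ^ 2) / 2)) := by
    refine setIntegral_mono_on (iG.add (hf.adm.integrableOn_gn.const_mul _)) (iE.const_mul _)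
      measurableSet_Q fun x hx => ?_
    have hg := gn_nonneg f x
    have h1 := sum_lower hN (p := p) (d := fun j => D f j x) (n := fun j => ζ j x) hg (gn_sq f x)
      hC₂0 hϑ
    have h2 : ∀ i, G i x + gn f x * (p ^ 2 * (D f i x / gn f x) ^ 2 + (D f i x / gn f x) ^ 4 -
        C₂ * |D f i x / gn f x - ζ i x|) ≤ gn f x * ∑ j, D (ζ i) j x ^ 2 := fun i => by
      have h3 := vector_ineq i (a := Px p (cc p (x i)) (ζ i x)) 
        (b := Pn p (H i) (cc p (x i)) (ζ i x))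
        (d := fun j => D f j x) (z := fun j => D (ζ i) j x) hg (gn_sq f x)
      have h4 := test_ineq' (by nlinarith [pi_le_four]) (hH i).1 (hζb i x) (abs_D_div_gn_le f i x)
        (hb _ (hH i) i x hx).1 (hb _ (hH i) i x hx).2.1 (hb _ (hH i) i x hx).2.2
      have h4' : (2 * (B + B ^ 2 / 4) + H i * B + 36) * |D f i x / gn f x - ζ i x| ≤
          C₂ * |D f i x / gn f x - ζ i x| := by
        rw [hC₂]; gcongr; exact (hH i).2
      have h5 := mul_le_mul_of_nonneg_left ((sub_le_sub_left h4' _).trans h4) hg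
      have h6 := gn_mul_div f i x
      simp only [hG, hΦdef, hΨdef, D_test hp0 hp i hx (hζd i x), if_true]
      have h7 : H i * (Ps p (H i) (cc p (x i)) (ζ i x) * D f i x) =
          gn f x * (H i * Ps p (H i) (cc p (x i)) (ζ i x) * (D f i x / gn f x)) := by
        conv_lhs => rw [← h6]
        ring
      rw [h7]
      linarith
    have h3 := Finset.sum_le_sum fun i (_ : i ∈ Finset.univ) => h2 i
    rw [Finset.sum_add_distrib, ← Finset.mul_sum _ (fun i => ∑ j, D (ζ i) j x ^ 2)] at h3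
    set S := ∑ i, ∑ j, D (ζ i) j x ^ 2
    set R := ∑ i, (D f i x / gn f x - ζ i x) ^ 2
    have hS : 0 ≤ S := by positivity
    have hR : 0 ≤ R := by positivity
    have h4 : (2 / r ^ 2 + 2 * C₂ / ϑ) * (gn f x * (r ^ 2 * S / 2 + R / 2)) =
        gn f x * S + C₂ / ϑ * (gn f x * R) + (gn f x * R / r ^ 2 + C₂ / ϑ * r ^ 2 * gn f x * S) := by
      field_simp; ring
    rw [h4]
    have : 0 ≤ gn f x * R / r ^ 2 + C₂ / ϑ * r ^ 2 * gn f x * S := by positivity
    linarith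
  rw [integral_add iG (hf.adm.integrableOn_gn.const_mul _), integral_const_mul,
    integral_const_mul, ← hVdef] at key
  have h1 := mul_le_mul_of_nonneg_left hE (show 0 ≤ 2 / r ^ 2 + 2 * C₂ / ϑ by positivity)
  have h2 : (p ^ 2 + 1 / N) * (J t - π * β) ≤ (p ^ 2 + 1 / N) * V := by gcongr
  have h3 : C₂ * N * ϑ * V ≤ C₂ * N * ϑ * (J t + β) := by gcongr
  linarith

/-- the relaxed profile is not approached in a fixed dimension at a point of large slope -/
theorem no_almost_min' {N : ℕ} (hN : 0 < N) {t b ρ : ℝ} (hab : 128 < b) (hρ : 0 < ρ)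
    (hP : 0 < J t)
    (supp : ∀ s, 0 ≤ s → s ≤ ρ → J t + 128 * s ≤ J (t + s) ∧ J t - b * s ≤ J (t - s))
    (hex : ∀ β, 0 < β → ∃ f : (Fin N → ℝ) → ℝ, GAdm f ∧ Sym 1 f ∧ ∫ x in Q (Fin N), f x = t ∧
      ∫ x in Q (Fin N), gn f x ≤ J t + β ∧ ∫ x in Q (Fin N), Iso (f x) ≤ β) : False := by
  have main : ∀ p, 0 < p → p < π → (p ^ 2 + 1 / N) * J t ≤ π ^ 2 * J t := by
    intro p hp0 hp
    obtain ⟨B, hB, hB'⟩ := test_bounds' p 128 b (tan (p / 2))
    set C₂ := 2 * (B + B ^ 2 / 4) + b * B + 36 with hC₂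
    have s3 : ∀ ϑ, 0 < ϑ → ∀ r, 0 < r → π * r < 1 →
        (p ^ 2 + 1 / N) * J t - C₂ * N * ϑ * J t ≤
          (π ^ 2 + C₂ * (π * r) ^ 2 / ϑ) * J t / (1 - π * r) := by
      intro ϑ hϑ r hr hr'
      set C := B + B * (1 / r) with hC
      have hC0 : 0 ≤ C := by positivity
      have s1 : ∀ ε, 0 < ε → ε * (C * N) < 1 / 2 → ε * (C * (J t + 1)) < ρ →
          (p ^ 2 + 1 / N) * J t - C₂ * N * ϑ * J t -
            N * (ε * (2 * N * C ^ 2) * J t) ≤
          (2 / r ^ 2 + 2 * C₂ / ϑ) * ((π * r) ^ 2 / 2 * J t / (1 - π * r)) := by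
        intro ε hε h1 h2
        have := lim_le
          (F := fun β => (p ^ 2 + 1 / N) * (J t - π * β) - C₂ * N * ϑ * (J t + β) -
            N * ((2 * π + 1) * β / ε + ε * (2 * N * C ^ 2) * (J t + β)))
          (G := fun β => (2 / r ^ 2 + 2 * C₂ / ϑ) *
            (((π * r) ^ 2 / 2 * (J t + β) + (π + 1) * β) / (1 - π * r)))
          (by fun_prop) (by fun_prop) ((eventually_small (c := 1) one_pos).mono fun β hβ => by
            obtain ⟨f, hf, hs, hft, hV, hI⟩ := hex β hβ.1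
            refine stepD' hN hf hs supp hab hp0 hp hB hB' hft hV hI hβ.1.le hr hr' hϑ hε
              (by rw [mul_assoc]; exact h1.le) (le_trans ?_ h2.le)
            have := hβ.2
            gcongr
            linarith)
        simpa using this
      have := lim_le
        (F := fun ε => (p ^ 2 + 1 / N) * J t - C₂ * N * ϑ * J t -
            N * (ε * (2 * N * C ^ 2) * J t))
        (G := fun _ => (2 / r ^ 2 + 2 * C₂ / ϑ) * ((π * r) ^ 2 / 2 * J t / (1 - π * r)))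
        (by fun_prop) (by fun_prop)
        (((eventually_small (c := C * N) one_half_pos).and
          (eventually_small (c := C * (J t + 1)) hρ)).mono fun ε hε =>
            s1 ε hε.1.1 hε.1.2 hε.2.2)
      simp only [zero_mul, mul_zero, sub_zero] at this
      refine this.trans_eq ?_
      have : 1 - π * r ≠ 0 := by linarith
      field_simp
    have s4 : ∀ ϑ, 0 < ϑ → (p ^ 2 + 1 / N) * J t - C₂ * N * ϑ * J t ≤ π ^ 2 * J t := by
      intro ϑ hϑ
      have := lim_le (F := fun _ => (p ^ 2 + 1 / N) * J t - C₂ * N * ϑ * J t)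
        (G := fun r => (π ^ 2 + C₂ * (π * r) ^ 2 / ϑ) * J t / (1 - π * r)) (by fun_prop)
        (by fun_prop (disch := simp))
        ((eventually_small (c := π) one_pos).mono fun r hr =>
          s3 ϑ hϑ r hr.1 (by rw [mul_comm]; exact hr.2))
      simpa using this
    have := lim_le (F := fun ϑ => (p ^ 2 + 1 / N) * J t - C₂ * N * ϑ * J t)
      (G := fun _ => π ^ 2 * J t) (by fun_prop) (by fun_prop)
      (eventually_mem_nhdsWithin.mono s4)
    simpa using this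
  have := lim_le (F := fun δ => ((π - δ) ^ 2 + 1 / N) * J t) (G := fun _ => π ^ 2 * J t)
    (by fun_prop) (by fun_prop) ((eventually_small (c := 1) pi_pos).mono fun δ hδ =>
      main _ (by linarith [hδ.2]) (by linarith [hδ.1]))
  have h1 : 0 < 1 / (N : ℝ) * J t := by positivity
  simp only [sub_zero] at this
  linarith

section
variable {ι : Type} [Fintype ι] [DecidableEq ι]

lemma gn_one_sub {u : (ι → ℝ) → ℝ} (x : ι → ℝ) : gn (fun y => 1 - u y) x = gn u x := by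
  simp [gn, D, fderiv_const_sub]

lemma abs_D_one_sub {u : (ι → ℝ) → ℝ} (i : ι) (x : ι → ℝ) :
    |D (fun y => 1 - u y) i x| = |D u i x| := by
  simp [D, fderiv_const_sub]

lemma Adm.one_sub {u : (ι → ℝ) → ℝ} (hu : Adm u) : Adm fun y => 1 - u y :=
  ⟨fun x hx => (hu.diff x hx).const_sub 1,
    hu.range.imp fun _ h => ⟨h.1, fun x hx => ⟨by linarith [(h.2 x hx).2], by linarith [(h.2 x hx).1]⟩⟩,
    hu.grad.imp fun _ h x hx i => by rw [abs_D_one_sub]; exact h x hx i⟩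

lemma GAdm.one_sub {u : (ι → ℝ) → ℝ} (hu : GAdm u) : GAdm fun y => 1 - u y :=
  ⟨hu.diff.const_sub 1,
    hu.range.imp fun _ h => ⟨h.1, fun x => ⟨by linarith [(h.2 x).2], by linarith [(h.2 x).1]⟩⟩,
    hu.grad.imp fun _ h x i => by rw [abs_D_one_sub]; exact h x i⟩

lemma Adm.integral_one_sub {u : (ι → ℝ) → ℝ} (hu : Adm u) :
    ∫ x in Q ι, (1 - u x) = 1 - ∫ x in Q ι, u x := by
  rw [integral_sub (integrable_const _) hu.integrableOn]
  simp

lemma bob_one_sub (u : (ι → ℝ) → ℝ) : Bob (fun y => 1 - u y) = Bob u := by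
  simp only [Bob, gn_one_sub, Iso_one_sub]

end

lemma J_one_sub (t : ℝ) : J (1 - t) = J t := by
  unfold J
  congr 1
  ext b
  constructor
  · rintro ⟨d, u, hu, h1, h2⟩
    exact ⟨d, _, hu.one_sub, by rw [hu.integral_one_sub, h1]; ring, by rw [bob_one_sub, h2]⟩
  · rintro ⟨d, u, hu, h1, h2⟩
    exact ⟨d, _, hu.one_sub, by rw [hu.integral_one_sub, h1], by rw [bob_one_sub, h2]⟩

/-- at all small and all large volumes the profile keeps decreasing with the dimension -/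
theorem small_volume : ∃ l > 0, ∀ t : ℝ, (0 < t ∧ t < l) ∨ (1 - l < t ∧ t < 1) →
    ∀ d, 1 ≤ d → ∃ d', d < d' ∧ Prof d' t < Prof d t := by
  have hΦ := Phi_mem_Ioo (-2000)
  refine ⟨Phi (-2000) / 8, by linarith [hΦ.1], fun t ht d hd => ?_⟩
  have ht' : t ∈ Ioo (0 : ℝ) 1 := by
    rcases ht with h | h
    · exact ⟨h.1, by linarith [h.2, hΦ.2]⟩
    · exact ⟨by linarith [h.1, hΦ.2], h.2⟩
  by_contra hcon
  push Not at hcon
  have hex : ∀ β, 0 < β → ∃ f : (Fin d → ℝ) → ℝ, GAdm f ∧ Sym 1 f ∧ ∫ x in Q (Fin d), f x = t ∧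
      ∫ x in Q (Fin d), gn f x ≤ J t + β ∧ ∫ x in Q (Fin d), Iso (f x) ≤ β := fun β hβ => by
    obtain ⟨n, hn, h⟩ := exists_prof_lt ht' (d + 1) hβ
    exact exists_near_of_lt ht' hβ ((hcon n hn).trans_lt h)
  rcases ht with h | h
  · obtain ⟨b, ρ, hb, hρ, supp⟩ := J_slopes h.1 (by linarith [h.2])
    exact no_almost_min' hd hb hρ (J_pos ht') supp hex
  · obtain ⟨b, ρ, hb, hρ, supp⟩ := J_slopes (t := 1 - t) (by linarith [h.2]) (by linarith [h.1])
    refine no_almost_min' hd hb hρ (by rw [J_one_sub]; exact J_pos ht') supp fun β hβ => ?_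
    obtain ⟨f, hf, hs, h1, h2, h3⟩ := hex β hβ
    refine ⟨_, hf.one_sub, ⟨fun k x => by simp only [hs.per], fun k x => by
      simp only [hs.par, Pi.one_apply, one_mul]⟩, by rw [hf.adm.integral_one_sub, h1], ?_, ?_⟩
    · simpa only [gn_one_sub, J_one_sub] using h2
    · simpa only [Iso_one_sub] using h3

end Pool.Agent.P.MP_b7645d_gt
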